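import Mathlib

/-!
# The minimum form of the bound

From `c ≤ q s t (1 + |log s|)^(1+ε)` and `c ≤ q s t (1 + |log (q s)|)^(1+ε)` (with `q s ≥ κ`, `s ≤ 1`)
to `c' ≤ q s t (log (2 + min (q s) (q t)))^(1+ε)`.
-/

set_option autoImplicit false

namespace Pool.Agent.H46.LM

open Real

theorem log_two_add_ge {x : ℝ} (hx : 0 ≤ x) : 1 / 2 ≤ log (2 + x) := by
  have h1 : log 2 ≤ log (2 + x) := log_le_log (by norm_num) (by linarith)
  have h2 : (1 / 2 : ℝ) ≤ log 2 := by
    have := Real.log_two_gt_d9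
    linarith
  linarith

/-- `1 + |log x| ≤ C log (2 + x)` for `x ≥ κ`. -/
theorem minA_first {κ : ℝ} (hκ : 0 < κ) : ∃ C : ℝ, 1 ≤ C ∧ ∀ x : ℝ, κ ≤ x →
    1 + |log x| ≤ C * log (2 + x) := by
  refine ⟨3 + 2 * |log κ|, by have := abs_nonneg (log κ); linarith, fun x hx => ?_⟩
  have hx0 : 0 < x := hκ.trans_le hx
  have h1 := log_two_add_ge hx0.le
  have h2 : |log x| ≤ log (2 + x) + |log κ| := by
    rw [abs_le]
    constructor
    · have h3 : log κ ≤ log x := log_le_log hκ hx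
      have h4 := neg_abs_le (log κ)
      linarith
    · have h3 : log x ≤ log (2 + x) := log_le_log hx0 (by linarith)
      have h4 := abs_nonneg (log κ)
      linarith
  have h5 := abs_nonneg (log κ)
  nlinarith

/-- `(1 + τ)^p ≤ C exp (τ / 2)` for `τ ≥ 0`. -/
theorem minA_exp (p : ℝ) (hp : 0 < p) : ∃ C : ℝ, 0 < C ∧ ∀ τ : ℝ, 0 ≤ τ →
    (1 + τ) ^ p ≤ C * exp (τ / 2) := by
  -- `log (1 + τ) ≤ (1 + τ) / (2 p) + log (2 p)`
  refine ⟨exp (1 / 2 + p * |log (2 * p)|), exp_pos _, fun τ hτ => ?_⟩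
  have h1 : 0 < 1 + τ := by linarith
  rw [rpow_def_of_pos h1, ← exp_add]
  apply exp_le_exp.2
  have h2 : log ((1 + τ) / (2 * p)) ≤ (1 + τ) / (2 * p) - 1 :=
    log_le_sub_one_of_pos (by positivity)
  rw [log_div h1.ne' (by positivity)] at h2
  have h3 : log (1 + τ) ≤ (1 + τ) / (2 * p) + |log (2 * p)| := by
    have := le_abs_self (log (2 * p))
    linarith
  have h4 : log (1 + τ) * p ≤ ((1 + τ) / (2 * p) + |log (2 * p)|) * p :=
    mul_le_mul_of_nonneg_right h3 hp.le
  have h5 : ((1 + τ) / (2 * p) + |log (2 * p)|) * p = (1 + τ) / 2 + p * |log (2 * p)| := by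
    field_simp
  linarith

theorem convert_min {ε κ c : ℝ} (hε : 0 < ε) (hκ : 0 < κ) (hc : 0 < c) :
    ∃ c' : ℝ, 0 < c' ∧ ∀ q s t : ℝ, 1 ≤ q → 0 < s → s ≤ 1 → 0 ≤ t → κ ≤ q * s →
      c ≤ q * s * t * (1 + |log s|) ^ (1 + ε) →
      c ≤ q * s * t * (1 + |log (q * s)|) ^ (1 + ε) →
      c' ≤ q * s * t * log (2 + min (q * s) (q * t)) ^ (1 + ε) := by
  obtain ⟨C1, hC1, h1⟩ := minA_first hκ
  obtain ⟨C2, hC2, h2⟩ := minA_exp (1 + ε) (by linarith)
  set D : ℝ := 3 + 2 * |log (C2 / c)| with hD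
  have hDa : 3 ≤ D := by have := abs_nonneg (log (C2 / c)); linarith
  set C : ℝ := C1 + 2 * D with hC
  have hCpos : 0 < C := by linarith
  have hC1C : C1 ≤ C := by linarith
  have hp : (0 : ℝ) ≤ 1 + ε := by linarith
  refine ⟨c / C ^ (1 + ε), by positivity, fun q s t hq hs hs1 ht hκs e1 e2 => ?_⟩
  have hq0 : 0 < q := by linarith
  have hx0 : 0 < q * s := by positivity
  have hy0 : 0 ≤ q * t := by positivity
  have hP : 0 ≤ q * s * t := by positivity
  -- (1)
  have a1 : 1 + |log (q * s)| ≤ C * log (2 + q * s) := by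
    have h3 := h1 _ hκs
    have h4 := log_two_add_ge hx0.le
    nlinarith
  -- (2)
  have a2 : 1 + |log s| ≤ C * log (2 + q * t) := by
    have hl : log s ≤ 0 := log_nonpos hs.le hs1
    set τ := |log s| with hτ
    have hτ0 : 0 ≤ τ := abs_nonneg _
    have hsτ : s = exp (-τ) := by
      rw [hτ, abs_of_nonpos hl, neg_neg, exp_log hs]
    have h3 := h2 τ hτ0
    have h4 : c ≤ s * (q * t) * (C2 * exp (τ / 2)) := by
      calc c ≤ q * s * t * (1 + τ) ^ (1 + ε) := e1
        _ ≤ q * s * t * (C2 * exp (τ / 2)) := mul_le_mul_of_nonneg_left h3 hP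
        _ = s * (q * t) * (C2 * exp (τ / 2)) := by ring
    have h5 : c / C2 * exp (τ / 2) ≤ q * t := by
      have h6 : s * exp (τ / 2) * exp (τ / 2) = 1 := by
        rw [hsτ, ← exp_add, ← exp_add, exp_eq_one_iff]
        ring
      have h7 : c * exp (τ / 2) ≤ C2 * (q * t) := by
        calc c * exp (τ / 2) ≤ s * (q * t) * (C2 * exp (τ / 2)) * exp (τ / 2) :=
              mul_le_mul_of_nonneg_right h4 (exp_pos _).le
          _ = C2 * (q * t) * (s * exp (τ / 2) * exp (τ / 2)) := by ring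
          _ = C2 * (q * t) := by rw [h6, mul_one]
      rw [div_mul_eq_mul_div, div_le_iff₀ hC2]
      linarith
    have h8 : c / C2 * exp (τ / 2) ≤ 2 + q * t := by linarith
    have h9 : log (c / C2 * exp (τ / 2)) ≤ log (2 + q * t) :=
      log_le_log (by positivity) h8
    rw [log_mul (by positivity) (exp_pos _).ne', log_exp] at h9
    have h10 : log (c / C2) = - log (C2 / c) := by
      rw [← log_inv, inv_div]
    have h11 := le_abs_self (log (C2 / c))
    have h12 := log_two_add_ge hy0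
    have h13 : τ ≤ 2 * log (2 + q * t) + 2 * |log (C2 / c)| := by
      rw [h10] at h9
      linarith
    have h14 : 1 + τ ≤ 2 * D * log (2 + q * t) := by
      have := abs_nonneg (log (C2 / c))
      nlinarith
    have h15 : 0 ≤ C1 * log (2 + q * t) := by positivity
    have h16 : C * log (2 + q * t) = C1 * log (2 + q * t) + 2 * D * log (2 + q * t) := by
      rw [hC]; ring
    linarith
  have key : ∀ A B : ℝ, 0 ≤ A → 1 + A ≤ C * B → 0 ≤ B → c ≤ q * s * t * (1 + A) ^ (1 + ε) →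
      c / C ^ (1 + ε) ≤ q * s * t * B ^ (1 + ε) := by
    intro A B hA hAB hB hcc
    have h3 : (1 + A) ^ (1 + ε) ≤ (C * B) ^ (1 + ε) := rpow_le_rpow (by linarith) hAB hp
    rw [mul_rpow hCpos.le hB] at h3
    have h4 : c ≤ q * s * t * (C ^ (1 + ε) * B ^ (1 + ε)) :=
      hcc.trans (mul_le_mul_of_nonneg_left h3 hP)
    rw [div_le_iff₀ (by positivity)]
    calc c ≤ q * s * t * (C ^ (1 + ε) * B ^ (1 + ε)) := h4
      _ = q * s * t * B ^ (1 + ε) * C ^ (1 + ε) := by ring
  rcases le_total (q * s) (q * t) with h | h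
  · rw [min_eq_left h]
    have := log_two_add_ge hx0.le
    exact key _ _ (abs_nonneg _) a1 (by linarith) e2
  · rw [min_eq_right h]
    have := log_two_add_ge hy0
    exact key _ _ (abs_nonneg _) a2 (by linarith) e1

end Pool.Agent.H46.LM
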