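import Pool.Agent.H19.LW.Fin
import Pool.Agent.H46.LM.MinA

/-!
# The minimum form of the theorem
-/

set_option autoImplicit false

namespace Pool.Agent.H46.LM

open Real

theorem minB_mul {ε c P X : ℝ} (hX : 0 ≤ X) (h : c * (1 + X) ^ (-(1 + ε)) ≤ P) :
    c ≤ P * (1 + X) ^ (1 + ε) := by
  have h0 : (0 : ℝ) < 1 + X := by linarith
  have h1 : 0 < (1 + X) ^ (1 + ε) := rpow_pos_of_pos h0 _
  have h2 := mul_le_mul_of_nonneg_right h h1.le
  rwa [mul_assoc, ← rpow_add h0, neg_add_cancel, rpow_zero, mul_one] at h2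

theorem limits_min (A : Set ℝ) (hA : A.Countable)
    (hbad : ∀ α ∈ A, ∃ c > 0, ∀ q : ℕ, 1 ≤ q → c ≤ q * |q * α - round (q * α)|) (ε : ℝ)
    (hε : 0 < ε) :
    dimH {β : ℝ | ∀ α ∈ A, ∃ c > 0, ∀ q : ℕ, 1 ≤ q →
        c ≤ q * |q * α - round (q * α)| * |q * β - round (q * β)| *
          log (2 + min (q * |q * α - round (q * α)|) (q * |q * β - round (q * β)|)) ^ (1 + ε)}
      = 1 := by
  refine le_antisymm ?_ ?_
  · calc _ ≤ dimH (Set.univ : Set ℝ) := dimH_mono (Set.subset_univ _)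
      _ = 1 := Real.dimH_univ
  · have hΘ : ({0, 1} : Set ℝ).Countable := Set.Countable.insert _ (Set.countable_singleton _)
    have h01 : ({0, 1} : Set ℝ) ⊆ Set.Icc 0 1 := by
      intro x hx
      rcases hx with rfl | hx
      · simp
      · rw [Set.mem_singleton_iff] at hx
        subst hx
        simp
    rw [← Pool.Agent.H19.LW.limits A {0, 1} hA hΘ h01 hbad ε hε]
    refine dimH_mono fun β hβ α hα => ?_
    obtain ⟨κ, hκ, hb⟩ := hbad α hα
    obtain ⟨c0, hc0, e0⟩ := hβ α hα 0 (by simp)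
    obtain ⟨c1, hc1, e1⟩ := hβ α hα 1 (by simp)
    have hκ' : 0 < κ := hκ
    have hc0' : 0 < c0 := hc0
    have hc1' : 0 < c1 := hc1
    obtain ⟨c, hc, h⟩ := convert_min hε hκ' (lt_min hc0' hc1')
    refine ⟨c, hc, fun q hq => ?_⟩
    have hq1 : (1 : ℝ) ≤ q := by exact_mod_cast hq
    have hbq := hb q hq
    have hs0 : 0 ≤ |q * α - round (q * α)| := abs_nonneg _
    have hs : 0 < |q * α - round (q * α)| := by
      rcases hs0.lt_or_eq with h1 | h1
      · exact h1
      · rw [← h1, mul_zero] at hbq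
        exact absurd hbq (not_le.mpr hκ')
    have hs1 : |q * α - round (q * α)| ≤ 1 := by
      have := abs_sub_round ((q : ℝ) * α)
      linarith
    refine h q _ _ hq1 hs hs1 (abs_nonneg _) hbq ?_ ?_
    · refine (min_le_left _ _).trans (minB_mul (abs_nonneg _) ?_)
      have := e0 q hq
      rwa [rpow_zero, one_mul] at this
    · refine (min_le_right _ _).trans (minB_mul (abs_nonneg _) ?_)
      have := e1 q hq
      rwa [rpow_one] at this

end Pool.Agent.H46.LM
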